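import Mathlib
import Pool.Agent.V11131.EntLim

/-!
The complete graph scenario `K_n` (all sets with at most two elements) is not Shannon-complete for
any `n ≥ 5`: there are entropic inequalities between the entropies of single variables and of pairs
of five variables which are not Shannon-type.

Idea. The Zhang–Yeung inequality for `A, B, C, D` involves the two triples `ACD` and `BCD`. Add a
fifth variable `X` and replace `H(ACD)`, `H(BCD)` by `H(AX)`, `H(BX)`. The error is at most the
penalty `H(CX) + H(DX) - H(X) - H(CD)`, which only involves pairs and vanishes when `X` is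
equivalent to the pair `CD`.
-/

set_option autoImplicit false

namespace Pool.Agent.Results.MP_7216ee_lc.CompleteGraphs

open MeasureTheory
open scoped ENNReal

universe u v

/-- A polymatroid on `{1, …, n}`: a function on subsets with `f ∅ = 0`, `f ≥ 0`, monotone and
submodular. -/
structure IsPolymatroid {n : ℕ} (f : Finset (Fin n) → ℝ) : Prop where
  empty : f ∅ = 0
  nonneg : ∀ S, 0 ≤ f S
  mono : ∀ S T, S ⊆ T → f S ≤ f T
  submod : ∀ S T, f (S ∩ T) + f (S ∪ T) ≤ f S + f T

/-- The Shannon entropy (base 2, with values in `[0, ∞]`) `∑_a -P(X = a) log₂ P(X = a)` of a random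
variable `X` with values in a countable set. -/
noncomputable def shannonEntropy {Ω : Type u} {α : Type v} [MeasurableSpace Ω] (μ : Measure Ω)
    (X : Ω → α) : ℝ≥0∞ :=
  ∑' a : α, ENNReal.ofReal (Real.negMulLog (μ.real (X ⁻¹' {a})) / Real.log 2)

/-- An entropic polymatroid: there are random variables `X_1, …, X_n` on a probability space with
values in countable sets such that `f S` is the (finite) entropy of `(X_i)_{i ∈ S}` for every `S`. -/
def IsEntropic {n : ℕ} (f : Finset (Fin n) → ℝ) : Prop :=
  IsPolymatroid f ∧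
    ∃ (Ω : Type u) (_ : MeasurableSpace Ω) (μ : Measure Ω) (_ : IsProbabilityMeasure μ)
      (α : Fin n → Type v) (_ : ∀ i, Countable (α i)) (X : ∀ i, Ω → α i),
      (∀ i (a : α i), MeasurableSet (X i ⁻¹' {a})) ∧
      ∀ S : Finset (Fin n),
        shannonEntropy μ (fun (ω : Ω) (i : S) => X i ω) = ENNReal.ofReal (f S)

/-- A marginal scenario `M` is Shannon-complete if every linear inequality
`∑_{S ∈ M} c_S h(S) ≥ 0` which holds for every entropic polymatroid holds for every polymatroid. -/
def ShannonComplete {n : ℕ} (M : Finset (Finset (Fin n))) : Prop :=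
  ∀ c : Finset (Fin n) → ℝ,
    (∀ f : Finset (Fin n) → ℝ, IsEntropic.{u, v} f → 0 ≤ ∑ S ∈ M, c S * f S) →
    ∀ f : Finset (Fin n) → ℝ, IsPolymatroid f → 0 ≤ ∑ S ∈ M, c S * f S

/-- The complete graph scenario `K_n`: the empty set, all singletons and all 2-element subsets. -/
def K (n : ℕ) : Finset (Finset (Fin n)) := Finset.univ.filter fun S => S.card ≤ 2

open Pool.Agent.V11131.EntLim in
/-- The Zhang–Yeung inequality for entropic polymatroids. -/
theorem zhang_yeung_entropic {n : ℕ} {f : Finset (Fin n) → ℝ} (hf : IsEntropic.{u, v} f)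
    (A B C D : Fin n) :
    2 * (f {C} + f {D} - f {C, D}) ≤
      (f {A} + f {B} - f {A, B}) + (f {A} + f {C, D} - f {A, C, D}) +
      3 * (f {A, C} + f {A, D} - f {A, C, D} - f {A}) +
      (f {B, C} + f {B, D} - f {B, C, D} - f {B}) := by
  classical
  obtain ⟨hp, Ω, mΩ, μ, hμ, α, hα, X, hX, hS⟩ := hf
  choose e he using fun i => exists_injective_nat (α i)
  let φ : Fin 4 → Fin n := ![A, B, C, D]
  let Z : Ω → (Fin 4 → ℕ) := fun ω j => e (φ j) (X (φ j) ω)
  have hZ : Measurable Z := by
    refine measurable_pi_iff.2 fun j => measurable_to_countable' fun y => ?_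
    by_cases hy : ∃ a, e (φ j) a = y
    · obtain ⟨a, ha⟩ := hy
      have : (fun ω => Z ω j) ⁻¹' {y} = X (φ j) ⁻¹' {a} := by
        ext ω
        simp only [Set.mem_preimage, Set.mem_singleton_iff, Z, ← ha]
        exact (he (φ j)).eq_iff
      rw [this]
      exact hX _ _
    · have : (fun ω => Z ω j) ⁻¹' {y} = ∅ := by
        ext ω
        simp only [Set.mem_preimage, Set.mem_singleton_iff, Z, Set.mem_empty_iff_false, iff_false]
        exact fun h => hy ⟨_, h⟩
      rw [this]
      exact MeasurableSet.empty
  let ν : Measure (Fin 4 → ℕ) := μ.map Z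
  have : IsProbabilityMeasure ν := Measure.isProbabilityMeasure_map hZ.aemeasurable
  have hlog : 0 < Real.log 2 := Real.log_pos (by norm_num)
  have key : ∀ T : Finset (Fin 4), Summable (fun t => Real.negMulLog (mI ν T t)) ∧
      ∑' t, Real.negMulLog (mI ν T t) = f (T.image φ) * Real.log 2 := by
    intro T
    let ι : (∀ i : (T.image φ : Finset (Fin n)), α i) → (Fin 4 → ℕ) := fun x j =>
      if h : j ∈ T then e (φ j) (x ⟨φ j, Finset.mem_image_of_mem φ h⟩) else 0
    have hι : Function.Injective ι := by
      intro x y hxy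
      funext ⟨i, hi⟩
      obtain ⟨j, hj, rfl⟩ := Finset.mem_image.1 hi
      have h1 := congrFun hxy j
      simp only [ι, dif_pos hj] at h1
      exact he _ h1
    let XS : Ω → (∀ i : (T.image φ : Finset (Fin n)), α i) := fun ω i => X i ω
    have hr : ∀ ω, rT T (Z ω) = ι (XS ω) := by
      intro ω
      funext j
      by_cases hj : j ∈ T
      · simp only [rT, ι, if_pos hj, dif_pos hj, Z, XS]
      · simp only [rT, ι, if_neg hj, dif_neg hj]
    have hmeas : ∀ t, MeasurableSet (rT T ⁻¹' {t}) := fun t => (Set.to_countable _).measurableSet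
    have hm1 : ∀ x, mI ν T (ι x)
        = μ.real ((fun (ω : Ω) (i : (T.image φ : Finset (Fin n))) => X i ω) ⁻¹' {x}) := by
      intro x
      unfold mI
      rw [map_measureReal_apply hZ (hmeas _)]
      congr 1
      ext ω
      simp only [Set.mem_preimage, Set.mem_singleton_iff, hr]
      exact (hι.eq_iff : ι (XS ω) = ι x ↔ XS ω = x)
    have hm2 : ∀ t, t ∉ Set.range ι → mI ν T t = 0 := by
      intro t ht
      unfold mI
      rw [map_measureReal_apply hZ (hmeas _)]
      have : Z ⁻¹' (rT T ⁻¹' {t}) = ∅ := by
        ext ω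
        simp only [Set.mem_preimage, Set.mem_singleton_iff, hr, Set.mem_empty_iff_false, iff_false]
        exact fun h => ht ⟨XS ω, h⟩
      rw [this, measureReal_empty]
    have hsum : ∑' t, ENNReal.ofReal (Real.negMulLog (mI ν T t) / Real.log 2)
        = ENNReal.ofReal (f (T.image φ)) := by
      rw [← hS (T.image φ), shannonEntropy, ← hι.tsum_eq (f := fun t =>
        ENNReal.ofReal (Real.negMulLog (mI ν T t) / Real.log 2))]
      · exact tsum_congr fun x => by rw [hm1]
      · intro t ht
        by_contra h
        apply ht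
        simp only [hm2 t h, Real.negMulLog_zero, zero_div, ENNReal.ofReal_zero]
    have hnn : ∀ t, 0 ≤ Real.negMulLog (mI ν T t) / Real.log 2 := fun t =>
      div_nonneg (Real.negMulLog_nonneg measureReal_nonneg (mI_le_one ν T t)) hlog.le
    have hsm : Summable fun t => Real.negMulLog (mI ν T t) / Real.log 2 := by
      have h1 := ENNReal.summable_toReal (f := fun t =>
        ENNReal.ofReal (Real.negMulLog (mI ν T t) / Real.log 2)) (by
          rw [hsum]; exact ENNReal.ofReal_ne_top)
      simpa only [ENNReal.toReal_ofReal (hnn _)] using h1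
    have hval : ∑' t, Real.negMulLog (mI ν T t) / Real.log 2 = f (T.image φ) := by
      rw [← ENNReal.ofReal_tsum_of_nonneg hnn hsm] at hsum
      exact (ENNReal.ofReal_eq_ofReal_iff (tsum_nonneg hnn) (hp.nonneg _)).1 hsum
    have hsm' : Summable fun t => Real.negMulLog (mI ν T t) := by
      have := hsm.mul_right (Real.log 2)
      simpa only [div_mul_cancel₀ _ hlog.ne'] using this
    refine ⟨hsm', ?_⟩
    rw [← hval, ← tsum_mul_right]
    exact tsum_congr fun t => (div_mul_cancel₀ _ hlog.ne').symm
  have h := zy_countable ν fun T => (key T).1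
  simp only [(key _).2, Finset.image_insert, Finset.image_singleton] at h
  have e0 : φ 0 = A := rfl
  have e1 : φ 1 = B := rfl
  have e2 : φ 2 = C := rfl
  have e3 : φ 3 = D := rfl
  rw [e0, e1, e2, e3] at h
  have h2 : Real.log 2 * (2 * (f {C} + f {D} - f {C, D})) ≤ Real.log 2 *
      ((f {A} + f {B} - f {A, B}) + (f {A} + f {C, D} - f {A, C, D}) +
      3 * (f {A, C} + f {A, D} - f {A, C, D} - f {A}) +
      (f {B, C} + f {B, D} - f {B, C, D} - f {B})) := by
    linarith
  exact le_of_mul_le_mul_left h2 hlog

/-- The linear form of the new inequality. -/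
def form {n : ℕ} (A B C D X : Fin n) (f : Finset (Fin n) → ℝ) : ℝ :=
  -f {A} - 2 * f {C} - 2 * f {D} - 5 * f {X} - 2 * f {C, D} - f {A, B} + 3 * f {A, C}
    + 3 * f {A, D} + f {B, C} + f {B, D} - 4 * f {A, X} - f {B, X} + 5 * f {C, X} + 5 * f {D, X}

/-- An inequality between entropies of single variables and of pairs. -/
theorem form_nonneg {n : ℕ} {f : Finset (Fin n) → ℝ} (hf : IsEntropic.{u, v} f)
    (A B C D X : Fin n) : 0 ≤ form A B C D X f := by
  classical
  have hzy := zhang_yeung_entropic hf A B C D
  have hp := hf.1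
  -- `f (Y X) ≤ f (Y C D) + P`
  have hP : ∀ Y : Fin n, f {Y, X} ≤ f {Y, C, D} + (f {C, X} + f {D, X} - f {X} - f {C, D}) := by
    intro Y
    have s1 : f {X} + f {C, D, X} ≤ f {C, X} + f {D, X} := by
      have h1 := hp.submod {C, X} {D, X}
      have h2 : ({C, X} : Finset (Fin n)) ∪ {D, X} = {C, D, X} := by
        ext i; simp only [Finset.mem_union, Finset.mem_insert, Finset.mem_singleton]; tauto
      rw [h2] at h1
      have h3 := hp.mono {X} ({C, X} ∩ {D, X}) (by
        intro i hi
        simp only [Finset.mem_singleton] at hi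
        simp [hi])
      linarith
    have s2 : f {C, D} + f {Y, C, D, X} ≤ f {C, D, X} + f {Y, C, D} := by
      have h1 := hp.submod {C, D, X} {Y, C, D}
      have h2 : ({C, D, X} : Finset (Fin n)) ∪ {Y, C, D} = {Y, C, D, X} := by
        ext i; simp only [Finset.mem_union, Finset.mem_insert, Finset.mem_singleton]; tauto
      rw [h2] at h1
      have h3 := hp.mono {C, D} ({C, D, X} ∩ {Y, C, D}) (by
        intro i hi
        simp only [Finset.mem_insert, Finset.mem_singleton] at hi
        simp only [Finset.mem_inter, Finset.mem_insert, Finset.mem_singleton]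
        tauto)
      linarith
    have s3 := hp.mono {Y, X} {Y, C, D, X} (by
      intro i hi
      simp only [Finset.mem_insert, Finset.mem_singleton] at hi ⊢
      tauto)
    linarith
  have hA := hP A
  have hB := hP B
  unfold form
  linarith

/-- the coefficients of the inequality -/
def coef {n : ℕ} (A B C D X : Fin n) (S : Finset (Fin n)) : ℝ :=
  (if S = {A} then -1 else 0) + (if S = {C} then -2 else 0) + (if S = {D} then -2 else 0)
    + (if S = {X} then -5 else 0) + (if S = {C, D} then -2 else 0) + (if S = {A, B} then -1 else 0)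
    + (if S = {A, C} then 3 else 0) + (if S = {A, D} then 3 else 0) + (if S = {B, C} then 1 else 0)
    + (if S = {B, D} then 1 else 0) + (if S = {A, X} then -4 else 0)
    + (if S = {B, X} then -1 else 0) + (if S = {C, X} then 5 else 0) + (if S = {D, X} then 5 else 0)

lemma sum_coef {n : ℕ} (A B C D X : Fin n) (f : Finset (Fin n) → ℝ) :
    ∑ S ∈ K n, coef A B C D X S * f S = form A B C D X f := by
  classical
  have h1 : ∀ Y : Fin n, ({Y} : Finset (Fin n)) ∈ K n := by
    intro Y; simp [K]
  have h2 : ∀ Y Z : Fin n, ({Y, Z} : Finset (Fin n)) ∈ K n := by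
    intro Y Z
    simp only [K, Finset.mem_filter, Finset.mem_univ, true_and]
    exact Finset.card_le_two
  simp only [coef, add_mul, ite_mul, zero_mul, Finset.sum_add_distrib, Finset.sum_ite_eq', h1, h2,
    if_true]
  unfold form
  ring

/-- the rank function of the violating polymatroid on five points; the point `4` is the union of
the points `2` and `3` -/
def rk (S : Finset (Fin 5)) : ℕ :=
  let S' := if 4 ∈ S then insert 2 (insert 3 (S.erase 4)) else S
  if S'.card = 0 then 0 else if S'.card = 1 then 2 else
    if S'.card = 2 then (if S' = {0, 1} then 4 else 3) else 4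

lemma rk_mono : ∀ S T : Finset (Fin 5), S ⊆ T → rk S ≤ rk T := by decide +kernel

lemma rk_submod : ∀ S T : Finset (Fin 5), rk (S ∩ T) + rk (S ∪ T) ≤ rk S + rk T := by
  decide +kernel

/-- the violating polymatroid on `n ≥ 5` points -/
def bad {n : ℕ} (h : 5 ≤ n) (S : Finset (Fin n)) : ℝ :=
  (rk (Finset.univ.filter fun i => Fin.castLE h i ∈ S) : ℝ)

lemma bad_polymatroid {n : ℕ} (h : 5 ≤ n) : IsPolymatroid (bad h) where
  empty := by
    have : (Finset.univ.filter fun i : Fin 5 => Fin.castLE h i ∈ (∅ : Finset (Fin n))) = ∅ := by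
      simp
    unfold bad
    rw [this]
    simp [rk]
  nonneg := fun S => Nat.cast_nonneg _
  mono := by
    intro S T hST
    unfold bad
    exact_mod_cast rk_mono _ _ (Finset.monotone_filter_right _ fun i _ hi => hST hi)
  submod := by
    intro S T
    unfold bad
    have := rk_submod (Finset.univ.filter fun i => Fin.castLE h i ∈ S)
      (Finset.univ.filter fun i => Fin.castLE h i ∈ T)
    rw [← Finset.filter_and, ← Finset.filter_or] at this
    simp only [Finset.mem_inter, Finset.mem_union]
    exact_mod_cast this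

lemma bad_image {n : ℕ} (h : 5 ≤ n) (S : Finset (Fin 5)) :
    bad h (S.image (Fin.castLE h)) = (rk S : ℝ) := by
  unfold bad
  congr 2
  ext i
  simp only [Finset.mem_filter, Finset.mem_univ, true_and, Finset.mem_image]
  constructor
  · rintro ⟨j, hj, hij⟩
    rwa [← (Fin.castLE_injective h hij)]
  · intro hi
    exact ⟨i, hi, rfl⟩

lemma form_bad {n : ℕ} (h : 5 ≤ n) : form (Fin.castLE h 0) (Fin.castLE h 1) (Fin.castLE h 2)
    (Fin.castLE h 3) (Fin.castLE h 4) (bad h) = -1 := by
  have s : ∀ a, bad h {Fin.castLE h a} = (rk {a} : ℝ) := by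
    intro a; rw [← bad_image h, Finset.image_singleton]
  have p : ∀ a b, bad h {Fin.castLE h a, Fin.castLE h b} = (rk {a, b} : ℝ) := by
    intro a b; rw [← bad_image h, Finset.image_insert, Finset.image_singleton]
  unfold form
  simp only [s, p]
  have v0 : rk {0} = 2 := by decide +kernel
  have v2 : rk {2} = 2 := by decide +kernel
  have v3 : rk {3} = 2 := by decide +kernel
  have v4 : rk {4} = 3 := by decide +kernel
  have v23 : rk {2, 3} = 3 := by decide +kernel
  have v01 : rk {0, 1} = 4 := by decide +kernel
  have v02 : rk {0, 2} = 3 := by decide +kernel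
  have v03 : rk {0, 3} = 3 := by decide +kernel
  have v12 : rk {1, 2} = 3 := by decide +kernel
  have v13 : rk {1, 3} = 3 := by decide +kernel
  have v04 : rk {0, 4} = 4 := by decide +kernel
  have v14 : rk {1, 4} = 4 := by decide +kernel
  have v24 : rk {2, 4} = 3 := by decide +kernel
  have v34 : rk {3, 4} = 3 := by decide +kernel
  rw [v0, v2, v3, v4, v23, v01, v02, v03, v12, v13, v04, v14, v24, v34]
  norm_num

/-- `K_n` is not Shannon-complete for `n ≥ 5`. -/
theorem not_complete {n : ℕ} (h : 5 ≤ n) : ¬ ShannonComplete.{u, v} (K n) := by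
  intro hc
  have h1 := hc (coef (Fin.castLE h 0) (Fin.castLE h 1) (Fin.castLE h 2) (Fin.castLE h 3)
    (Fin.castLE h 4)) (fun f hf => by
      rw [sum_coef]
      exact form_nonneg hf _ _ _ _ _) (bad h) (bad_polymatroid h)
  rw [sum_coef, form_bad h] at h1
  norm_num at h1

/-- Q2 has a negative answer: the complete graph scenario `K_n` is not Shannon-complete for any
`n ≥ 5`; in particular it is not Shannon-complete for every `n`. -/
theorem result : (∀ n : ℕ, 5 ≤ n → ¬ ShannonComplete.{u, v} (K n)) ∧
    ¬ ∀ n : ℕ, ShannonComplete.{u, v} (K n) :=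
  ⟨fun _ h => not_complete h, fun h => not_complete le_rfl (h 5)⟩

end Pool.Agent.Results.MP_7216ee_lc.CompleteGraphs
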